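import Pool.Agent.helper80.SG.Spec
import Pool.Agent.helper73.SV.DFM

/-!
# Project sg: (MP_b5a345_ag), module DFC: the deformation property for clusters
-/

set_option autoImplicit false
set_option linter.unusedSectionVars false

namespace Pool.Agent.SG

open MvPolynomial Module Pool.Agent.SV

section

variable {ι κ : Type} [Fintype ι] [DecidableEq ι] [Fintype κ] [DecidableEq κ]

theorem DFC_cut (x : ι → ℂ) : cut Finset.univ x = x := by
  funext i
  simp [cut]

theorem DFC_Lval (c : ι → κ) (T : Finset κ) (L : ι → ℂ) (a : Fin 3) (P : (ι → ℂ) × (ι → ℂ))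
    (k : κ) : Lval c Finset.univ L (ptc c T a P) k =
      if k ∈ T then (if a = 0 then Lval c Finset.univ L P.1 k else
        if a = 1 then Lval c Finset.univ L P.2 k else
          Lval c Finset.univ L P.1 k + Lval c Finset.univ L P.2 k)
      else Lval c Finset.univ L P.1 k := by
  unfold Lval
  by_cases hk : k ∈ T
  · rw [if_pos hk]
    by_cases h0 : a = 0
    · rw [if_pos h0]
      refine Finset.sum_congr rfl fun j hj => ?_
      have hj' : c j = k := (Finset.mem_filter.mp hj).2
      simp [ptc, hj', hk, h0]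
    · rw [if_neg h0]
      by_cases h1 : a = 1
      · rw [if_pos h1]
        refine Finset.sum_congr rfl fun j hj => ?_
        have hj' : c j = k := (Finset.mem_filter.mp hj).2
        simp [ptc, hj', hk, h1]
      · rw [if_neg h1, ← Finset.sum_add_distrib]
        refine Finset.sum_congr rfl fun j hj => ?_
        have hj' : c j = k := (Finset.mem_filter.mp hj).2
        simp [ptc, hj', hk, h0, h1, mul_add]
  · rw [if_neg hk]
    refine Finset.sum_congr rfl fun j hj => ?_
    have hj' : c j = k := (Finset.mem_filter.mp hj).2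
    simp [ptc, hj', hk]

theorem DFC_ptc (c : ι → κ) (T : Finset κ) (L w : ι → ℂ) (t : ℂ) (a : Fin 3)
    (P : (ι → ℂ) × (ι → ℂ)) :
    ptc c T a (hpt c Finset.univ L w t P.1, hpt c Finset.univ L w t P.2) =
      hpt c Finset.univ L w t (ptc c T a P) := by
  funext i
  have e := DFC_Lval c T L a P (c i)
  simp only [hpt, Finset.mem_univ, if_true, e]
  by_cases hk : c i ∈ T
  · by_cases h0 : a = 0
    · simp [ptc, hk, h0, hpt]
    · by_cases h1 : a = 1
      · simp [ptc, hk, h1, hpt]
      · simp only [ptc, hk, h0, h1, hpt, if_true, if_false, Finset.mem_univ]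
        ring
  · simp [ptc, hk, hpt]

end

/-- **DFC** -/
theorem DFC (hPLY : PLY_stmt) (hHSB : HSB_stmt) (hHPT : HPT_stmt) (hHON : HON_stmt)
    (hSPN : SPN_stmt) : DFC_stmt := by
  intro ι κ _ _ _ _ c T d f hf P₀ l hg
  obtain ⟨g, hg⟩ := hg
  obtain ⟨w, hw⟩ : ∃ w : ι → ℂ, eval w (f : MvPolynomial ι ℂ) ≠ 0 := by
    by_contra hcon
    push Not at hcon
    apply hf
    apply Subtype.ext
    apply MvPolynomial.funext
    intro x
    rw [hcon x]
    simp
  set G : MvPolynomial ι ℂ →ₗ[ℂ] (Fin 3 × ι → ℂ) := LinearMap.pi fun ai : Fin 3 × ι =>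
    (evL (ptc c T ai.1 P₀)) ∘ₗ (pderiv ai.2).toLinearMap with hG
  have hGa : ∀ (p : MvPolynomial ι ℂ) (a : Fin 3) (i : ι),
      G p (a, i) = eval (ptc c T a P₀) (pderiv i p) := by
    intro p a i
    simp [hG]
  have hGP : ∀ v : ↥(Sec c Finset.univ d), PhiC c T d false P₀ v = G (v : MvPolynomial ι ℂ) := by
    intro v
    funext ai
    obtain ⟨a, i⟩ := ai
    rw [PhiC_apply, hGa]
    simp
  obtain ⟨L, hL⟩ : ∃ L : ι → ℂ, l (G (Lprod c Finset.univ d L)) ≠ 0 := by
    by_contra hcon
    push Not at hcon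
    have h1 := hSPN c Finset.univ d (l ∘ₗ G) hcon (g : MvPolynomial ι ℂ) g.2
    apply hg
    rw [hGP]
    exact h1
  refine ⟨fun t P => (hpt c Finset.univ L w t P.1, hpt c Finset.univ L w t P.2),
    fun t f' => ⟨bind₁ (hsub c Finset.univ L w t) (f' : MvPolynomial ι ℂ),
      hHSB c Finset.univ Finset.univ d (Finset.Subset.refl _) L w t _ f'.2⟩, ?_, ?_, ?_, ?_, ?_⟩
  · intro P
    apply Prod.ext
    · exact (hHPT c Finset.univ Finset.univ d (Finset.Subset.refl _) L w 0 _ f.2 P.1).2.2
    · exact (hHPT c Finset.univ Finset.univ d (Finset.Subset.refl _) L w 0 _ f.2 P.2).2.2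
  · intro τ P v ai
    obtain ⟨a, i⟩ := ai
    simp only [PhiC_apply, DFC_ptc]
    by_cases h : τ = true ∧ a ≠ 0
    · simp only [if_pos h]
      exact PolyFun.const 0
    · simp only [h, if_false]
      exact (hPLY (ι := ι) (κ := κ)).1 (fun j t => hpt c Finset.univ L w t (ptc c T a P) j)
        (fun j => DFM_hpt c Finset.univ L w (ptc c T a P) j) _
  · intro P ai
    obtain ⟨a, i⟩ := ai
    simp only [PhiC_apply]
    have h : ¬ (false = true ∧ a ≠ 0) := by simp
    simp only [h, if_false]
    exact (DFM_bind c Finset.univ L w (ptc c T a P) f).2 i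
  · intro τ P t h
    funext ai
    obtain ⟨a, i⟩ := ai
    rw [PhiC_apply]
    by_cases h1 : τ = true ∧ a ≠ 0
    · rw [if_pos h1]
      rfl
    · rw [if_neg h1]
      have h2 : gradL Finset.univ (ptc c T a P) (f : MvPolynomial ι ℂ) = 0 := by
        funext j
        rw [gradL_apply]
        have := congrFun h (a, j)
        rw [PhiC_apply, if_neg h1] at this
        simpa using this
      have h3 := (hHPT c Finset.univ Finset.univ d (Finset.Subset.refl _) L w t _ f.2
        (ptc c T a P)).1 h2
      have h4 := congrFun h3 i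
      rw [gradL_apply] at h4
      rw [DFC_ptc]
      simpa using h4
  · have h5 : PhiC c T d false P₀ (⟨bind₁ (hsub c Finset.univ L w 1) (f : MvPolynomial ι ℂ),
        hHSB c Finset.univ Finset.univ d (Finset.Subset.refl _) L w 1 _ f.2⟩ :
          ↥(Sec c Finset.univ d)) = eval w (f : MvPolynomial ι ℂ) •
          G (Lprod c Finset.univ d L) := by
      rw [hGP]
      funext ai
      obtain ⟨a, i⟩ := ai
      have h6 := congrFun (hHON c Finset.univ Finset.univ d (Finset.Subset.refl _) L w f f.2
        (ptc c T a P₀)) i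
      rw [DFC_cut, DFC_cut, Pi.smul_apply, gradL_apply, gradL_apply] at h6
      rw [Pi.smul_apply, hGa, hGa]
      simpa using h6
    show l (PhiC c T d false P₀ _) ≠ 0
    rw [h5, map_smul]
    exact smul_ne_zero hw hL

end Pool.Agent.SG
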