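import Pool.Agent.helper68.SG.SpecF

/-!
# F07: the working form implies Q1 (project sg:)
-/

set_option autoImplicit false

open MeasureTheory Set Metric Filter Topology
open scoped ENNReal NNReal ComplexConjugate commutatorElement

namespace Pool.Agent.SG

/-- F07: the working form implies Q1. -/
theorem F07 (h1 : F01_stmt) (h2 : F02_stmt) (h3 : F03_stmt) (h4 : F04_stmt) (h5 : F05_stmt)
    (h6 : F06_stmt) : F07_stmt := by
  intro hM g hg μ hμ
  obtain ⟨W, hWS, hWμ⟩ := h2 _ μ hμ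
  obtain ⟨δ, hδ, H⟩ := hM (SurfaceGroup g) (h5 g (by omega)) (h6 g hg) W
  refine ⟨(δ : ℝ≥0∞), by exact_mod_cast hδ, ?_⟩
  intro ρ hρ ν hν
  obtain ⟨A, hA, hDF⟩ := h1 _ ρ
  obtain ⟨hd, hf⟩ := hDF hρ
  obtain ⟨B, hB, hB0, hBd⟩ := H A hd hf _ (h3 _ μ ρ A W ν hA hWS hWμ hν)
  exact h4 ν B δ hB hB0 hBd

end Pool.Agent.SG
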