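import Pool.Agent.helper17.SG.SpecM

/-!
# M02: a lower bound for the harmonic measures (project sg:)
-/

set_option autoImplicit false

open MeasureTheory Set Metric Filter Topology
open scoped ENNReal NNReal ComplexConjugate

namespace Pool.Agent.SG

/-- M02: `hit x y * nux y E ≤ nux x E`. -/
theorem M02 (hP02 : P02_stmt) (hM01 : M01_stmt) : M02_stmt := by
  intro Γ _ A W ν hS x y E hE
  exact hP02 Γ W (fun x => nux A ν x E) ((hM01 Γ A W ν hS).2.2.2.2.2 E hE) x y

end Pool.Agent.SG
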